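import Mathlib

set_option autoImplicit false

namespace Pool.Agent.Results.MP_a7ee28_al.Small

open Matrix

variable {K : Type} [Field K] {d : ℕ}

/-- irreducible tridiagonal matrix -/
def IrrTri (M : Matrix (Fin (d + 1)) (Fin (d + 1)) K) : Prop :=
  ∀ i j, (i.1 + 1 < j.1 ∨ j.1 + 1 < i.1 → M i j = 0) ∧ (i.1 + 1 = j.1 ∨ j.1 + 1 = i.1 → M i j ≠ 0)

/-- some basis makes `A` diagonal and every member of `S` irreducible tridiagonal -/
def Good (A : Matrix (Fin (d + 1)) (Fin (d + 1)) K)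
    (S : Set (Matrix (Fin (d + 1)) (Fin (d + 1)) K)) : Prop :=
  ∃ P Q : Matrix (Fin (d + 1)) (Fin (d + 1)) K, Q * P = 1 ∧ (Q * A * P).IsDiag ∧
    ∀ B ∈ S, IrrTri (Q * B * P)

theorem result : ∃ (q : ℚ) (X Y Z A As Ae : Matrix (Fin 2) (Fin 2) ℚ)
    (σ : Matrix (Fin 2) (Fin 2) ℚ ≃ₗ[ℚ] Matrix (Fin 2) (Fin 2) ℚ),
    q ≠ 0 ∧ (∀ n : ℕ, 0 < n → q ^ n ≠ 1) ∧ IsUnit X ∧
    q • (X * Y) - q⁻¹ • (Y * X) = (q - q⁻¹) • 1 ∧ q • (Y * Z) - q⁻¹ • (Z * Y) = (q - q⁻¹) • 1 ∧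
    q • (Z * X) - q⁻¹ • (X * Z) = (q - q⁻¹) • 1 ∧
    (∀ W : Submodule ℚ (Fin 2 → ℚ), (∀ w ∈ W, X *ᵥ w ∈ W ∧ Y *ᵥ w ∈ W ∧ Z *ᵥ w ∈ W) →
      W = ⊥ ∨ W = ⊤) ∧
    A ∈ Submodule.span ℚ {1, X, Y, X * Y} ∧ As ∈ Submodule.span ℚ {1, Y, Z, Y * Z} ∧
    Good (d := 1) A {As, Ae} ∧ Good (d := 1) As {A, Ae} ∧ Good (d := 1) Ae {A, As} ∧
    (∀ S T, σ (S * T) = σ T * σ S) ∧ σ A = A ∧ σ As = As ∧
    Ae ∉ Submodule.span ℚ {1, Z, X, Z * X} ∧ σ Ae ∉ Submodule.span ℚ {1, Z, X, Z * X} := by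
  let B : Matrix (Fin 2) (Fin 2) ℚ := !![1, 1; 1, -1]
  let B' : Matrix (Fin 2) (Fin 2) ℚ := !![1 / 2, 1 / 2; 1 / 2, -1 / 2]
  have h1 : B * B' = 1 := by decide +kernel
  have h2 : B' * B = 1 := by decide +kernel
  have h3 : Bᵀ = B ∧ B'ᵀ = B' := by decide +kernel
  have h4 : ∀ M : Matrix (Fin 2) (Fin 2) ℚ, B' * (B' * Mᵀ * B)ᵀ * B = M := fun M => by
    simp only [transpose_mul, transpose_transpose, h3.1, h3.2, ← Matrix.mul_assoc, h2,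
      Matrix.one_mul]
    rw [Matrix.mul_assoc, h2, Matrix.mul_one]
  have h5 : ∀ M ∈ Submodule.span ℚ {1, !![1 / 2, -3 / 2; 0, 2], !![2, 0; 0, 1 / 2],
      !![1 / 2, -3 / 2; 0, 2] * !![(2 : ℚ), 0; 0, 1 / 2]}, M 1 0 = 0 := fun M hM => by
    induction hM using Submodule.span_induction with
    | mem x hx => rcases hx with rfl | rfl | rfl | rfl <;> decide +kernel
    | zero => rfl
    | add x y _ _ hx hy => simp [hx, hy]
    | smul a x _ hx => simp [hx]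
  refine ⟨2, !![2, 0; 0, 1 / 2], !![1 / 2, 0; 3 / 2, 2], !![1 / 2, -3 / 2; 0, 2], !![1, 0; 1, 0],
    !![1 / 2, -3 / 2; 0, 2], !![0, 1; 4, 0], ⟨⟨⟨fun M => B' * Mᵀ * B, fun _ _ => by
      simp [Matrix.mul_add, Matrix.add_mul]⟩, fun _ _ => by simp⟩, fun M => B' * Mᵀ * B, h4, h4⟩,
    two_ne_zero, fun n hn => (one_lt_pow₀ one_lt_two hn.ne').ne', (isUnit_iff_isUnit_det _).2
      (by simp), by decide +kernel, by decide +kernel, by decide +kernel, fun W hW => ?_, ?_,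
    Submodule.subset_span (by simp), ⟨!![1, 0; 1, 1], !![1, 0; -1, 1], ?_⟩,
    ⟨!![1, 1; 0, -1], !![1, 1; 0, -1], ?_⟩, ⟨!![1, 1; 2, -2], !![1 / 2, 1 / 4; 1 / 2, -1 / 4], ?_⟩,
    fun S T => ?_, show B' * _ * B = _ by decide +kernel, show B' * _ * B = _ by decide +kernel,
    fun h => absurd (h5 _ h) (by decide +kernel),
    fun h => absurd (h5 _ h) (show ¬ (B' * !![0, 1; 4, 0]ᵀ * B : Matrix _ _ ℚ) 1 0 = 0 by decide +kernel)⟩
  · refine or_iff_not_imp_left.2 fun h => ?_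
    obtain ⟨w, hw, h0⟩ := (Submodule.ne_bot_iff W).1 h
    have a1 := (hW w hw).1
    have a2 := (hW _ (W.sub_mem a1 (W.smul_mem (1 / 2 : ℚ) hw))).2.1
    have a3 := (hW _ (W.sub_mem a1 (W.smul_mem (2 : ℚ) hw))).2.2
    refine eq_top_iff.2 fun v _ => ?_
    by_cases h6 : w 0 = 0
    · have h7 : w 1 ≠ 0 := fun h7 => h0 (by ext i; fin_cases i <;> assumption)
      convert W.add_mem (W.smul_mem (4 * v 0 / (9 * w 1)) a3)
        (W.smul_mem ((v 1 + 4 * v 0 / 3) / w 1) hw) using 1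
      ext i; fin_cases i <;> simp [h6, vecHead, vecTail] <;> field_simp <;> ring
    · convert W.add_mem (W.smul_mem (4 * v 1 / (9 * w 0)) a2) (W.smul_mem
        ((2 * v 0 / 3 - 2 * v 1 / 9) / w 0) (W.sub_mem a1 (W.smul_mem (1 / 2 : ℚ) hw))) using 1
      ext i; fin_cases i <;> simp [vecHead, vecTail] <;> field_simp <;> ring
  · rw [show !![(1 : ℚ), 0; 1, 0] = (-2 : ℚ) • 1 + (4 / 3 : ℚ) • !![2, 0; 0, 1 / 2] +
      (2 / 3 : ℚ) • !![1 / 2, 0; 3 / 2, 2] by decide +kernel]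
    refine add_mem (add_mem ?_ ?_) ?_ <;> exact Submodule.smul_mem _ _ (Submodule.subset_span (by simp))
  iterate 3
    simp only [Set.forall_mem_insert, Set.mem_singleton_iff, forall_eq, IrrTri, IsDiag, Pairwise]
    decide +kernel
  · show B' * _ * B = B' * _ * B * (B' * _ * B)
    simp only [transpose_mul, Matrix.mul_assoc]
    rw [← Matrix.mul_assoc B, h1, Matrix.one_mul]

end Pool.Agent.Results.MP_a7ee28_al.Small
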